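import Pool.Agent.H18.Adm4
import Pool.Agent.H18.Adm5

set_option autoImplicit false

namespace Pool.Agent.Results.MP_a0ba93_nt.Full

/-- `S_r(A)`: sums of `r` distinct elements of `A`. -/
def S (r : ℕ) (A : Set ℕ) : Set ℕ :=
  {x | ∃ B : Finset ℕ, ↑B ⊆ A ∧ B.card = r ∧ x = ∑ b ∈ B, b}

/-- `S_r(A)` and `S_s(A)` are disjoint whenever `1 ≤ r < s`. -/
def Admissible (A : Set ℕ) : Prop := ∀ r s : ℕ, 1 ≤ r → r < s → Disjoint (S r A) (S s A)

/-- `a_n`, the `n`-th smallest element of `A`, for `n ≥ 1`. -/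
noncomputable def el (A : Set ℕ) (n : ℕ) : ℕ := Nat.nth (· ∈ A) (n - 1)

/-- Some infinite admissible set of positive integers has `a_{n+1} - a_n ≤ n ^ c` eventually. -/
def Attainable (c : ℝ) : Prop :=
  ∃ A : Set ℕ, A.Infinite ∧ 0 ∉ A ∧ Admissible A ∧
    ∃ n₀ : ℕ, ∀ n : ℕ, 1 ≤ n → n₀ ≤ n → (el A (n + 1) : ℝ) - el A n ≤ (n : ℝ) ^ c

open Pool.Agent.H18.Adm

theorem result : {c : ℝ | Attainable c} = Set.Ici ((5 + √17) / 2) := by
  have hs : √17 * √17 = 17 := Real.mul_self_sqrt (by norm_num)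
  have hs0 : 0 ≤ √17 := Real.sqrt_nonneg _
  have hs4 : 4 < √17 := by nlinarith
  have up : ∀ c c' : ℝ, c ≤ c' → Attainable c → Attainable c' := by
    rintro c c' h ⟨A, h1, h2, h3, n0, h4⟩
    exact ⟨A, h1, h2, h3, n0, fun n hn hn' => (h4 n hn hn').trans
      (Real.rpow_le_rpow_of_exponent_le (by exact_mod_cast hn) h)⟩
  ext c
  simp only [Set.mem_setOf_eq, Set.mem_Ici]
  constructor
  · intro h
    by_contra hc
    push Not at hc
    obtain ⟨A, hA, h0, hadm, n0, hg⟩ := up c (max c (9 / 2)) (le_max_left _ _) h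
    have c1 : 9 / 2 ≤ max c (9 / 2) := le_max_right _ _
    have c2 : max c (9 / 2) < (5 + √17) / 2 := max_lt hc (by linarith)
    generalize max c (9 / 2) = c' at hg c1 c2
    have hmono : StrictMono (Nat.nth (· ∈ A)) := Nat.nth_strictMono hA
    have hmem : ∀ n, Nat.nth (· ∈ A) n ∈ A := fun n => Nat.nth_mem_of_infinite hA n
    have hS : ∀ T : Finset ℕ, ∑ i ∈ T, Nat.nth (· ∈ A) i ∈ S T.card A := fun T =>
      ⟨T.image (Nat.nth (· ∈ A)), by
        intro x hx
        obtain ⟨i, -, rfl⟩ := Finset.mem_image.1 (Finset.mem_coe.1 hx)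
        exact hmem i, Finset.card_image_of_injective _ hmono.injective, by
        rw [Finset.sum_image (fun x _ y _ h => hmono.injective h)]⟩
    have key : ∀ U T : Finset ℕ, U.card < T.card →
        ∑ i ∈ U, Nat.nth (· ∈ A) i ≠ ∑ i ∈ T, Nat.nth (· ∈ A) i := by
      intro U T hlt he
      rcases Nat.eq_zero_or_pos U.card with h1 | h1
      · rw [Finset.card_eq_zero.1 h1, Finset.sum_empty] at he
        obtain ⟨i, hi⟩ := Finset.card_pos.1 (show 0 < T.card by omega)
        have := (Finset.sum_eq_zero_iff.1 he.symm) i hi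
        exact h0 (this ▸ hmem i)
      · exact Set.disjoint_left.1 (hadm _ _ h1 hlt) (hS U) (he ▸ hS T)
    refine no_hyp (c := c') (C := Nat.nth (· ∈ A) n0 + 1) (a := Nat.nth (· ∈ A)) c1 (by nlinarith)
      ⟨hmono, fun U T he => ?_, fun i => ?_, ?_⟩
    · rcases lt_trichotomy U.card T.card with h1 | h1 | h1
      · exact absurd he (key U T h1)
      · exact h1
      · exact absurd he.symm (key T U h1)
    · have p1 : (1 : ℝ) ≤ ((i : ℝ) + 1) ^ c' := Real.one_le_rpow (by simp) (by linarith)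
      have p0 : (0 : ℝ) ≤ Nat.nth (· ∈ A) n0 := Nat.cast_nonneg _
      by_cases hi : n0 ≤ i + 1
      · have := hg (i + 1) (by omega) hi
        simp only [el, Nat.add_sub_cancel] at this
        push_cast at this
        nlinarith
      · have h1 : (Nat.nth (· ∈ A) (i + 1) : ℝ) ≤ Nat.nth (· ∈ A) n0 := by
          exact_mod_cast hmono.monotone (by omega)
        have p2 : (0 : ℝ) ≤ Nat.nth (· ∈ A) i := Nat.cast_nonneg _
        nlinarith
    · have h1 : (Nat.nth (· ∈ A) 0 : ℝ) ≤ Nat.nth (· ∈ A) n0 := by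
        exact_mod_cast hmono.monotone (by omega)
      linarith
  · intro hc
    refine up _ _ hc ?_
    obtain ⟨a, h1, h2, h3, n0, h4⟩ := construct (c := (5 + √17) / 2) (by nlinarith) (by linarith)
    have hnth : ∀ n, Nat.nth (· ∈ Set.range a) n = a n := by
      have hinf : (Set.range a).Infinite := Set.infinite_range_of_injective h1.injective
      have := (StrictMono.range_inj (Nat.nth_strictMono hinf) h1).1 (Nat.range_nth_of_infinite hinf)
      exact fun n => congrFun this n
    have hS : ∀ r x, x ∈ S r (Set.range a) → ∃ T : Finset ℕ, T.card = r ∧ x = ∑ i ∈ T, a i := by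
      rintro r x ⟨B, b1, b2, b3⟩
      obtain ⟨T, rfl⟩ := Finset.subset_set_image_iff.1 (Set.image_univ ▸ b1 : ↑B ⊆ a '' Set.univ)
        |>.imp fun _ h => h.2
      rw [Finset.card_image_of_injective _ h1.injective] at b2
      rw [Finset.sum_image (fun x _ y _ h => h1.injective h)] at b3
      exact ⟨T, b2, b3⟩
    refine ⟨Set.range a, Set.infinite_range_of_injective h1.injective, ?_, ?_, n0 + 1, ?_⟩
    · rintro ⟨i, hi⟩
      have := h1.monotone (Nat.zero_le i)
      omega
    · intro r s _ hrs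
      rw [Set.disjoint_left]
      intro x hx hx'
      obtain ⟨U, u1, u2⟩ := hS _ _ hx
      obtain ⟨T, t1, t2⟩ := hS _ _ hx'
      exact h3 U T (by omega) (u2.symm.trans t2)
    · intro n hn hn'
      obtain ⟨j, rfl⟩ : ∃ j, n = j + 1 := ⟨n - 1, by omega⟩
      simp only [el, Nat.add_sub_cancel, hnth]
      have := h4 j (by omega)
      push_cast
      linarith

end Pool.Agent.Results.MP_a0ba93_nt.Full
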